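import Pool.Agent.Lib.MP_af2b3e_co.BSLinear

set_option autoImplicit false

namespace Pool.Agent.Results.MP_af2b3e_co.AlmostDisjoint

/-- If `H` is `n`-uniform and Almost Disjoint with maximum degree at most `D` and
`D (n (⌊log₂ |H|⌋ + 1))^640 ≤ 2^n`, then the second player has a Strong Draw. -/
theorem result :
    ∀ (n D : ℕ), 2 ≤ n →
      ∀ (V : Type) [Fintype V] [DecidableEq V] (H : Finset (Finset V)),
        (∀ e ∈ H, e.card = n) →
        (∀ e ∈ H, ∀ f ∈ H, e ≠ f → (e ∩ f).card ≤ 1) →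
        (∀ v : V, (H.filter (fun e => v ∈ e)).card ≤ D) →
        D * (n * (Nat.log 2 H.card + 1)) ^ 640 ≤ 2 ^ n →
        ∃ W : Set (Finset V × Finset V), ((∅ : Finset V), (∅ : Finset V)) ∈ W ∧
          ∀ M B : Finset V, (M, B) ∈ W → ∀ x : V, x ∉ M → x ∉ B →
            (∀ e ∈ H, ¬ e ⊆ insert x M) ∧
            (insert x M ∪ B = Finset.univ ∨
              ∃ y : V, y ∉ insert x M ∧ y ∉ B ∧ (insert x M, insert y B) ∈ W) :=
  fun _ _ hn2 _ _ _ _ hn hlin hD hnum =>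
    (Pool.Agent.Lib.MP_af2b3e_co.BS.linear_log hn2 hn hlin hD hnum).wins

end Pool.Agent.Results.MP_af2b3e_co.AlmostDisjoint
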