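import Pool.Agent.Lib.MP_af2b3e_co.BSSparse

set_option autoImplicit false

namespace Pool.Agent.Results.MP_af2b3e_co.Sparse

/-- If any `s ≤ log₂ |H|` edges of the `n`-uniform hypergraph `H` cover at least `(n - K) s`
points and every edge meets at most `2^(n - 2K - 10)` edges, then the second player has a
Strong Draw. -/
theorem result :
    ∀ (n K Δ : ℕ), 1 ≤ n →
      ∀ (V : Type) [Fintype V] [DecidableEq V] (H : Finset (Finset V)),
        (∀ e ∈ H, e.card = n) →
        (∀ S ⊆ H, S.card ≤ Nat.log 2 H.card →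
          n * S.card ≤ (S.biUnion id).card + K * S.card) →
        (∀ e ∈ H, (H.filter (fun f => ¬ Disjoint f e)).card ≤ Δ) →
        Δ * 2 ^ (2 * K + 10) ≤ 2 ^ n →
        ∃ W : Set (Finset V × Finset V), ((∅ : Finset V), (∅ : Finset V)) ∈ W ∧
          ∀ M B : Finset V, (M, B) ∈ W → ∀ x : V, x ∉ M → x ∉ B →
            (∀ e ∈ H, ¬ e ⊆ insert x M) ∧
            (insert x M ∪ B = Finset.univ ∨
              ∃ y : V, y ∉ insert x M ∧ y ∉ B ∧ (insert x M, insert y B) ∈ W) :=
  fun _ _ _ hn1 _ _ _ _ hn hsp hΔ hnum =>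
    (Pool.Agent.Lib.MP_af2b3e_co.BS.sparse hn1 hn hΔ hsp hnum).wins

end Pool.Agent.Results.MP_af2b3e_co.Sparse
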